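import Mathlib
import Pool.Agent.LGO.Gal.Fin
import Pool.Agent.LGO.Gal.NCM
import Pool.Agent.LGO.H.MDeg

/-!
# Zilber-Pink for curves in `Y(1)ⁿ`: the four types of atypical points

A special subvariety of codimension at least `2` imposes on its points one of the following conditions: three
isogenous coordinates; two pairs of isogenous coordinates; a pair of isogenous coordinates and a CM coordinate; two
CM coordinates.  If each of these conditions (where isogenous coordinates are supposed not to be CM) holds for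
finitely many points of the curve `V` only, for each choice of the coordinates, then the Zilber-Pink statement holds
for `V`.
-/

namespace Pool.Agent.LGO.ZPR

open UpperHalfPlane MvPolynomial Pool.Agent.Hhelper14.ZP Pool.Agent.Hhelper14.ZPL Pool.Agent.LGO

variable {n : ℕ}

/-- the Zilber-Pink statement for `V ⊆ Y(1)ⁿ`: there are finitely many special subvarieties `T ≠ ℂⁿ` such that every
atypical component of the intersection of `V` with a special subvariety is contained in one of them -/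
def ZilberPink (V : Set (Fin n → ℂ)) : Prop :=
  ∃ S : Set (Set (Fin n → ℂ)), S.Finite ∧
    (∀ T ∈ S, Pool.Agent.Hhelper14.ZP.IsSpecial T ∧ T ≠ Set.univ) ∧
    ∀ Z W, Pool.Agent.Hhelper14.ZP.IsSpecial Z → Pool.Agent.Hhelper14.ZP.IsComponent W (V ∩ Z) →
      Pool.Agent.Hhelper14.ZP.dim Z + Pool.Agent.Hhelper14.ZP.dim V <
        Pool.Agent.Hhelper14.ZP.dim W + n → ∃ T ∈ S, W ⊆ T

/-- the coordinates `i` and `j` are isogenous and not CM -/
def Pr (x : Fin n → ℂ) (i j : Fin n) : Prop := NCM (x i) ∧ HeckeRel (x i) (x j)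

theorem Types_comb {r : ℕ} {block : Fin n → Option (Fin r)} (hb : ∀ b : Fin r, ∃ i, block i = some b)
    (hr : r + 2 ≤ n) :
    (∃ i j, i ≠ j ∧ block i = none ∧ block j = none) ∨
    (∃ i j k b, i ≠ j ∧ i ≠ k ∧ j ≠ k ∧ block i = some b ∧ block j = some b ∧ block k = none) ∨
    (∃ i j k b, i ≠ j ∧ i ≠ k ∧ j ≠ k ∧ block i = some b ∧ block j = some b ∧ block k = some b) ∨
    ∃ i j k l b b', i ≠ j ∧ i ≠ k ∧ i ≠ l ∧ j ≠ k ∧ j ≠ l ∧ k ≠ l ∧ block i = some b ∧
      block j = some b ∧ block k = some b' ∧ block l = some b' := by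
  classical
  choose rep hrep using hb
  have hinj : Function.Injective rep := by
    intro b b' h
    have h1 := hrep b
    rw [h, hrep b'] at h1
    exact (Option.some.inj h1).symm
  have hcard : 1 < (Finset.univ \ Finset.univ.image rep : Finset (Fin n)).card := by
    rw [Finset.card_sdiff_of_subset (Finset.subset_univ _), Finset.card_univ, Fintype.card_fin,
      Finset.card_image_of_injective _ hinj, Finset.card_univ, Fintype.card_fin]
    omega
  obtain ⟨u, hu, v, hv, huv⟩ := Finset.one_lt_card.mp hcard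
  have hu' : ∀ b, rep b ≠ u := by
    intro b h
    rw [Finset.mem_sdiff] at hu
    exact hu.2 (Finset.mem_image.mpr ⟨b, Finset.mem_univ _, h⟩)
  have hv' : ∀ b, rep b ≠ v := by
    intro b h
    rw [Finset.mem_sdiff] at hv
    exact hv.2 (Finset.mem_image.mpr ⟨b, Finset.mem_univ _, h⟩)
  rcases hbu : block u with _ | b
  · rcases hbv : block v with _ | b'
    · exact Or.inl ⟨u, v, huv, hbu, hbv⟩
    · exact Or.inr (Or.inl ⟨rep b', v, u, b', hv' b', hu' b', huv.symm, hrep b', hbv, hbu⟩)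
  · rcases hbv : block v with _ | b'
    · exact Or.inr (Or.inl ⟨rep b, u, v, b, hu' b, hv' b, huv, hrep b, hbu, hbv⟩)
    · by_cases hbb : b = b'
      · subst hbb
        exact Or.inr (Or.inr (Or.inl ⟨rep b, u, v, b, hu' b, hv' b, huv, hrep b, hbu, hbv⟩))
      · refine Or.inr (Or.inr (Or.inr ⟨rep b, u, rep b', v, b, b', hu' b, fun h => hbb (hinj h), hv' b,
          (hu' b').symm, huv, hv' b', hrep b, hbu, hrep b', hbv⟩))

theorem Types_block {r : ℕ} {block : Fin n → Option (Fin r)} {g : Fin n → GL (Fin 2) ℚ}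
    {s : Fin n → ℍ} (hg : ∀ i, 0 < (g i).det.val) {x : Fin n → ℂ} (hx : x ∈ SpSet block g s)
    {i j : Fin n} {b : Fin r} (hi : block i = some b) (hj : block j = some b) :
    HeckeRel (x i) (x j) := by
  obtain ⟨τ, hτ⟩ := hx
  have h1 := hτ i
  have h2 := hτ j
  rw [hi] at h1
  rw [hj] at h2
  simp only [Option.elim_some] at h1 h2
  have key : ∀ (g : GL (Fin 2) ℚ) (hg : 0 < g.det.val) (τ : ℍ), HeckeRel (jInv τ) (jInv (gact g τ)) :=
    fun g hg τ => ⟨τ, g, hg, rfl, rfl⟩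
  have h3 := key (g i) (hg i) (τ b)
  have h4 := key (g j) (hg j) (τ b)
  rw [h1, h2]
  exact Pool.Agent.LGO.HeckeRel.trans' (Pool.Agent.LGO.HeckeRel.symm' h3) h4

theorem Types_cm {r : ℕ} {block : Fin n → Option (Fin r)} {g : Fin n → GL (Fin 2) ℚ}
    {s : Fin n → ℍ} (hs : ∀ i, block i = none → IsCM (s i)) {x : Fin n → ℂ}
    (hx : x ∈ SpSet block g s) {i : Fin n} (hi : block i = none) : IsCMVal (x i) := by
  obtain ⟨τ, hτ⟩ := hx
  have h1 := hτ i
  rw [hi] at h1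
  exact ⟨s i, hs i hi, h1⟩

theorem Types_iso {u v : ℂ} (h : HeckeRel u v) : IsCMVal u ↔ IsCMVal v := by
  obtain ⟨N, hN, h1⟩ := heckeRel_iff.mp h
  exact h1.isCMVal_iff hN

/-- **the four types** -/
theorem zp_of_types {V : Set (Fin n → ℂ)} (hV : Pool.Agent.Hhelper14.ZPL.IsIrredClosed V)
    (hdim : Pool.Agent.Hhelper14.ZPL.dim V = 1)
    (h1 : ∀ i j k : Fin n, i ≠ j → i ≠ k → j ≠ k → {x ∈ V | Pr x i j ∧ Pr x i k}.Finite)
    (h2 : ∀ i j k l : Fin n, i ≠ j → i ≠ k → i ≠ l → j ≠ k → j ≠ l → k ≠ l →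
      {x ∈ V | Pr x i j ∧ Pr x k l}.Finite)
    (h3 : ∀ i j k : Fin n, i ≠ j → i ≠ k → j ≠ k → {x ∈ V | Pr x i j ∧ IsCMVal (x k)}.Finite)
    (h4 : ∀ i j : Fin n, i ≠ j → {x ∈ V | IsCMVal (x i) ∧ IsCMVal (x j)}.Finite) :
    ZilberPink V := by
  classical
  by_cases hsp : ∃ Z₀, Pool.Agent.Hhelper14.ZP.IsSpecial Z₀ ∧ Z₀ ≠ Set.univ ∧ V ⊆ Z₀
  · obtain ⟨Z₀, hZ₀, hne, hVZ⟩ := hsp
    exact ⟨{Z₀}, Set.finite_singleton _, fun T hT => by rw [hT]; exact ⟨hZ₀, hne⟩, fun Z W _ hW _ =>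
      ⟨Z₀, rfl, hW.2.1.trans (Set.inter_subset_left.trans hVZ)⟩⟩
  -- the finite set of the points of the four types
  set F : Set (Fin n → ℂ) :=
    (⋃ t : {t : Fin n × Fin n × Fin n // t.1 ≠ t.2.1 ∧ t.1 ≠ t.2.2 ∧ t.2.1 ≠ t.2.2},
      {x ∈ V | Pr x t.1.1 t.1.2.1 ∧ Pr x t.1.1 t.1.2.2}) ∪
    (⋃ t : {t : Fin n × Fin n × Fin n × Fin n // t.1 ≠ t.2.1 ∧ t.1 ≠ t.2.2.1 ∧ t.1 ≠ t.2.2.2 ∧
        t.2.1 ≠ t.2.2.1 ∧ t.2.1 ≠ t.2.2.2 ∧ t.2.2.1 ≠ t.2.2.2},
      {x ∈ V | Pr x t.1.1 t.1.2.1 ∧ Pr x t.1.2.2.1 t.1.2.2.2}) ∪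
    (⋃ t : {t : Fin n × Fin n × Fin n // t.1 ≠ t.2.1 ∧ t.1 ≠ t.2.2 ∧ t.2.1 ≠ t.2.2},
      {x ∈ V | Pr x t.1.1 t.1.2.1 ∧ IsCMVal (x t.1.2.2)}) ∪
    (⋃ t : {t : Fin n × Fin n // t.1 ≠ t.2}, {x ∈ V | IsCMVal (x t.1.1) ∧ IsCMVal (x t.1.2)}) with hF
  have hFfin : F.Finite := by
    refine Set.Finite.union (Set.Finite.union (Set.Finite.union ?_ ?_) ?_) ?_
    · exact Set.finite_iUnion fun t => h1 _ _ _ t.2.1 t.2.2.1 t.2.2.2
    · exact Set.finite_iUnion fun t => h2 _ _ _ _ t.2.1 t.2.2.1 t.2.2.2.1 t.2.2.2.2.1 t.2.2.2.2.2.1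
        t.2.2.2.2.2.2
    · exact Set.finite_iUnion fun t => h3 _ _ _ t.2.1 t.2.2.1 t.2.2.2
    · exact Set.finite_iUnion fun t => h4 _ _ t.2
  have hF4 : ∀ x ∈ V, ∀ i j, i ≠ j → IsCMVal (x i) → IsCMVal (x j) → x ∈ F := by
    intro x hx i j hij hi hj
    exact Or.inr (Set.mem_iUnion.mpr ⟨⟨(i, j), hij⟩, hx, hi, hj⟩)
  -- a point on a special subvariety of codimension at least 2 is in `F`
  have hmem : ∀ x ∈ V, ∀ (r : ℕ) (block : Fin n → Option (Fin r)) (g : Fin n → GL (Fin 2) ℚ)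
      (s : Fin n → ℍ), (∀ b : Fin r, ∃ i, block i = some b) → (∀ i, 0 < (g i).det.val) →
      (∀ i, block i = none → IsCM (s i)) → x ∈ SpSet block g s → r + 2 ≤ n → x ∈ F := by
    intro x hx r block g s hb hg hs hxs hr
    rcases Types_comb hb hr with ⟨i, j, hij, hi, hj⟩ | ⟨i, j, k, b, hij, hik, hjk, hi, hj, hk⟩ |
      ⟨i, j, k, b, hij, hik, hjk, hi, hj, hk⟩ | ⟨i, j, k, l, b, b', hij, hik, hil, hjk, hjl, hkl, hi, hj, hk, hl⟩
    · exact hF4 x hx i j hij (Types_cm hs hxs hi) (Types_cm hs hxs hj)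
    · have hk' := Types_cm hs hxs hk
      by_cases hc : IsCMVal (x i)
      · exact hF4 x hx i k hik hc hk'
      · exact Or.inl (Or.inr (Set.mem_iUnion.mpr ⟨⟨(i, j, k), hij, hik, hjk⟩, hx,
          ⟨ncm_iff.mpr hc, Types_block hg hxs hi hj⟩, hk'⟩))
    · by_cases hc : IsCMVal (x i)
      · exact hF4 x hx i j hij hc ((Types_iso (Types_block hg hxs hi hj)).mp hc)
      · exact Or.inl (Or.inl (Or.inl (Set.mem_iUnion.mpr ⟨⟨(i, j, k), hij, hik, hjk⟩, hx,
          ⟨ncm_iff.mpr hc, Types_block hg hxs hi hj⟩, ncm_iff.mpr hc, Types_block hg hxs hi hk⟩)))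
    · by_cases hc : IsCMVal (x i)
      · exact hF4 x hx i j hij hc ((Types_iso (Types_block hg hxs hi hj)).mp hc)
      · by_cases hc' : IsCMVal (x k)
        · exact hF4 x hx k l hkl hc' ((Types_iso (Types_block hg hxs hk hl)).mp hc')
        · exact Or.inl (Or.inl (Or.inr (Set.mem_iUnion.mpr ⟨⟨(i, j, k, l), hij, hik, hil, hjk, hjl, hkl⟩,
            hx, ⟨ncm_iff.mpr hc, Types_block hg hxs hi hj⟩, ncm_iff.mpr hc', Types_block hg hxs hk hl⟩)))
  -- for every point of `F` one special subvariety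
  set G : Set (Fin n → ℂ) :=
    {x ∈ F | ∃ T, Pool.Agent.Hhelper14.ZP.IsSpecial T ∧ T ≠ Set.univ ∧ x ∈ T} with hG
  have hGfin : G.Finite := hFfin.subset fun x hx => hx.1
  choose! T hT using fun x (hx : x ∈ G) => hx.2
  refine ⟨T '' G, hGfin.image T, ?_, ?_⟩
  · rintro _ ⟨x, hx, rfl⟩
    exact ⟨(hT x hx).1, (hT x hx).2.1⟩
  · intro Z W hZ hW hlt
    have hWi : Pool.Agent.Hhelper14.ZPL.IsIrredClosed W := hW.1
    have hWV : W ⊆ V := hW.2.1.trans Set.inter_subset_left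
    have hWZ : W ⊆ Z := hW.2.1.trans Set.inter_subset_right
    obtain ⟨w, hw, -⟩ := exists_dim hWi
    obtain ⟨r, block, g, s, hb, hg, hs, hZe⟩ := isSpecial_iff.mp (show
      Pool.Agent.Hhelper14.ZPL.IsSpecial Z from hZ)
    have hdZ : Pool.Agent.Hhelper14.ZPL.dim Z = (r : ℕ) := by
      rw [hZe, dim_spSet hb hg, Fintype.card_fin]
    have hlt' : Pool.Agent.Hhelper14.ZPL.dim Z + Pool.Agent.Hhelper14.ZPL.dim V <
        Pool.Agent.Hhelper14.ZPL.dim W + n := hlt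
    rw [hdZ, hdim, hw] at hlt'
    have h5 : r + 1 < w + n := by exact_mod_cast hlt'
    have hw1 : w ≤ 1 := by
      have h6 := dim_mono hWV
      rw [hw, hdim] at h6
      exact_mod_cast h6
    have hZu : Z ≠ Set.univ := by
      intro h
      rw [h, dim_univ, Fintype.card_fin] at hdZ
      have h6 : n = r := by exact_mod_cast hdZ
      omega
    have hw0 : w = 0 := by
      by_contra hne
      have h6 : W = V := eq_of_dim_le hWi hV hWV (by
        rw [hdim, hw]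
        have : 1 ≤ w := by omega
        exact_mod_cast this)
      exact hsp ⟨Z, hZ, hZu, h6 ▸ hWZ⟩
    subst hw0
    obtain ⟨x, hx⟩ := irred_nonempty hWi
    have hWx : {x} = W := eq_of_dim_le (irredClosed_singleton x) hWi (Set.singleton_subset_iff.mpr hx) (by
      obtain ⟨d, hd, -⟩ := exists_dim (irredClosed_singleton x)
      rw [hw, hd]
      exact_mod_cast Nat.zero_le d)
    have hxF : x ∈ F := hmem x (hWV hx) r block g s hb hg hs (hZe ▸ hWZ hx) (by omega)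
    have hxG : x ∈ G := ⟨hxF, Z, hZ, hZu, hWZ hx⟩
    refine ⟨T x, ⟨x, hxG, rfl⟩, ?_⟩
    rw [← hWx, Set.singleton_subset_iff]
    exact (hT x hxG).2.2

end Pool.Agent.LGO.ZPR
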